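import Mathlib

/-!
# The undirected Sylow graph of a product of two normal subgroups

We build a finite group `G` with normal subgroups `A` and `B`, `G = A B`, such that `{3, 5}` is an
edge of the undirected Sylow graph of `A` but not of the undirected Sylow graph of `G`.

Let `H = M ⋊ S₅`, where `M` is the deleted permutation module of `S₅` over `ZMod 3`, let
`G = C₅ ≀ H` be the regular wreath product, let `A` be the kernel of `G → H → S₅`, and `B = G`.
-/

namespace Pool.Agent.Results.MP_8e29f8_al.UndirectedSylow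

open Equiv

/-- There is an arc from `p` to `q` in the Sylow graph of `G`: `p` and `q` are primes dividing the
order of `G` and, for a Sylow `p`-subgroup `P` of `G`, the prime `q` divides `|N(P) : P C(P)|`. -/
def SylowArc (G : Type) [Group G] (p q : ℕ) : Prop :=
  p.Prime ∧ q.Prime ∧ p ∣ Nat.card G ∧ q ∣ Nat.card G ∧
    ∃ P : Sylow p G,
      q ∣ ((P : Subgroup G) ⊔ Subgroup.centralizer ((P : Subgroup G) : Set G)).relIndex
        (Subgroup.normalizer ((P : Subgroup G) : Set G))

/-- `p` and `q` are joined by an edge of the undirected Sylow graph of `G`. -/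
def SylowEdge (G : Type) [Group G] (p q : ℕ) : Prop :=
  p ≠ q ∧ (SylowArc G p q ∨ SylowArc G q p)

/-! ### A fixed point lemma -/

/-- A power of prime order element normalizing a subgroup whose order is not congruent to one
commutes with a nontrivial element of it. -/
theorem exists_commuting {H : Type} [Group H] [Finite H] {r : ℕ} (hr : r.Prime)
    (S : Subgroup H) (x : H) (hx : x ∈ Subgroup.normalizer (S : Set H)) (k : ℕ)
    (hk : x ^ r ^ k = 1) (hS : ¬ Nat.card S ≡ 1 [MOD r]) :
    ∃ s ∈ S, s ≠ 1 ∧ x * s = s * x := by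
  classical
  let _ : Fintype S := Fintype.ofFinite S
  have : Fact r.Prime := ⟨hr⟩
  have hx' : ∀ s : H, s ∈ S → x * s * x⁻¹ ∈ S := fun s hs =>
    (Subgroup.mem_normalizer_iff.1 hx s).1 hs
  let f : Function.End S := fun s => ⟨x * s * x⁻¹, hx' s s.2⟩
  have hf : ∀ (n : ℕ) (s : S), (((f ^ n : Function.End S) s : S) : H) = x ^ n * s * (x ^ n)⁻¹ := by
    intro n
    induction n with
    | zero =>
      intro s
      simp only [pow_zero, one_mul, inv_one, mul_one]
      rfl
    | succ n ih =>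
      intro s
      have h1 : ((f ^ (n + 1) : Function.End S) s : S) = (f ^ n : Function.End S) (f s) := by
        rw [pow_succ]; rfl
      rw [h1, ih]
      simp only [f]
      rw [pow_succ]
      group
  have hfk : f ^ r ^ k = 1 := by
    funext s
    apply Subtype.ext
    rw [hf, hk]
    simp only [one_mul, inv_one, mul_one]
    rfl
  have hmod := Equiv.Perm.card_fixedPoints_modEq hfk
  rw [← Nat.card_eq_fintype_card] at hmod
  by_contra hcon
  push Not at hcon
  have hone : Fintype.card f.fixedPoints = 1 := by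
    rw [Fintype.card_eq_one_iff]
    refine ⟨⟨1, ?_⟩, ?_⟩
    · apply Subtype.ext
      simp [f]
    · rintro ⟨s, hs⟩
      apply Subtype.ext
      have h1 : f s = s := hs
      have h2 : x * s * x⁻¹ = (s : H) := congrArg Subtype.val h1
      by_contra hne
      refine hcon s s.2 (fun h => hne ?_) ?_
      · apply Subtype.ext
        simpa using h
      · rw [mul_inv_eq_iff_eq_mul] at h2
        exact h2
  rw [hone] at hmod
  exact hS hmod

/-! ### The group `H` -/

/-- The semidirect product of the permutation module over `ZMod 3` with `S₅`. -/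
@[ext]
structure H0 where
  /-- the vector -/
  m : Fin 5 → ZMod 3
  /-- the permutation -/
  s : Perm (Fin 5)

namespace H0

instance : Mul H0 := ⟨fun a b => ⟨fun i => a.m i + b.m (a.s⁻¹ i), a.s * b.s⟩⟩
instance : One H0 := ⟨⟨fun _ => 0, 1⟩⟩
instance : Inv H0 := ⟨fun a => ⟨fun i => - a.m (a.s i), a.s⁻¹⟩⟩

@[simp] theorem mul_m (a b : H0) (i : Fin 5) : (a * b).m i = a.m i + b.m (a.s⁻¹ i) := rfl
@[simp] theorem mul_s (a b : H0) : (a * b).s = a.s * b.s := rfl
@[simp] theorem one_m (i : Fin 5) : (1 : H0).m i = 0 := rfl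
@[simp] theorem one_s : (1 : H0).s = 1 := rfl
@[simp] theorem inv_m (a : H0) (i : Fin 5) : (a⁻¹).m i = - a.m (a.s i) := rfl
@[simp] theorem inv_s (a : H0) : (a⁻¹).s = a.s⁻¹ := rfl

instance : Group H0 where
  mul_assoc a b c := by
    ext i
    · simp [add_assoc]
    · simp
  one_mul a := by ext i <;> simp
  mul_one a := by ext i <;> simp
  inv_mul_cancel a := by ext i <;> simp

end H0

/-- The vectors of coordinate sum zero, with `S₅` on top. -/
def H1 : Subgroup H0 where
  carrier := {a | ∑ i, a.m i = 0}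
  one_mem' := by simp
  mul_mem' := by
    intro a b ha hb
    simp only [Set.mem_ofPred_eq] at ha hb ⊢
    simp only [H0.mul_m, Finset.sum_add_distrib]
    rw [ha, Equiv.sum_comp (a.s⁻¹) b.m, hb, add_zero]
  inv_mem' := by
    intro a ha
    simp only [Set.mem_ofPred_eq] at ha ⊢
    simp only [H0.inv_m, Finset.sum_neg_distrib]
    rw [Equiv.sum_comp a.s a.m, ha, neg_zero]

/-- The group `H = M ⋊ S₅`. -/
abbrev H : Type := H1

/-- the set underlying `H` -/
def eqv : H ≃ {m : Fin 5 → ZMod 3 // ∑ i, m i = 0} × Perm (Fin 5) where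
  toFun a := (⟨a.1.m, a.2⟩, a.1.s)
  invFun b := ⟨⟨b.1.1, b.2⟩, b.1.2⟩
  left_inv _ := rfl
  right_inv _ := rfl

instance : Finite H := Finite.of_equiv _ eqv.symm

theorem card_M : Fintype.card {m : Fin 5 → ZMod 3 // ∑ i, m i = 0} = 81 := by
  decide +kernel

theorem card_H : Nat.card H = 9720 := by
  rw [Nat.card_congr eqv, Nat.card_prod, Nat.card_eq_fintype_card, Nat.card_eq_fintype_card,
    card_M, Fintype.card_perm]
  rfl

/-- the projection to `S₅` -/
def pr : H →* Perm (Fin 5) where
  toFun a := a.1.s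
  map_one' := rfl
  map_mul' _ _ := rfl

theorem perm15 : ∀ σ : Perm (Fin 5), σ ^ 15 = 1 → σ ^ 3 = 1 ∨ σ ^ 5 = 1 := by
  decide +kernel

theorem perm5 : ∀ σ : Perm (Fin 5), σ ^ 5 = 1 → σ ≠ 1 → ∀ i, ∃ k : Fin 5, (σ ^ (k : ℕ)) 0 = i := by
  decide +kernel

theorem perm3pow : ∀ σ : Perm (Fin 5), σ ^ 9 = 1 → σ ^ 3 = 1 := by
  decide +kernel

/-- In `H` a nontrivial `3`-element never commutes with a nontrivial `5`-element (prime order
case). -/
theorem no_comm_prime (x s : H) (hx : x ^ 3 = 1) (hs : s ^ 5 = 1) (hs1 : s ≠ 1)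
    (hc : x * s = s * x) : x = 1 := by
  have hσ5 : (pr s) ^ 5 = 1 := by rw [← map_pow, hs, map_one]
  have hτ3 : (pr x) ^ 3 = 1 := by rw [← map_pow, hx, map_one]
  have hcc : Commute (pr x) (pr s) := by
    change pr x * pr s = pr s * pr x
    rw [← map_mul, hc, map_mul]
  -- the image of `s` is nontrivial
  have hσ1 : pr s ≠ 1 := by
    intro h
    apply hs1
    have hs' : s.1.s = 1 := h
    have key : ∀ n : ℕ, (s ^ n).1.s = 1 ∧ ∀ i, (s ^ n).1.m i = (n : ZMod 3) * s.1.m i := by
      intro n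
      induction n with
      | zero => exact ⟨rfl, fun i => by simp⟩
      | succ n ih =>
        have h1 : (s ^ (n + 1)).1 = (s ^ n).1 * s.1 := by rw [pow_succ]; rfl
        constructor
        · rw [h1, H0.mul_s, ih.1, hs', one_mul]
        · intro i
          rw [h1, H0.mul_m, ih.2, ih.1]
          simp
          ring
    have h5 := (key 5).2
    rw [hs] at h5
    apply Subtype.ext
    ext i
    · have h6 := h5 i
      simp only [Subgroup.coe_one, H0.one_m] at h6 ⊢
      have h7 : ((5 : ℕ) : ZMod 3) = -1 := by decide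
      rw [h7] at h6
      simpa using h6.symm
    · rw [hs']
      rfl
  -- the image of `x` is trivial
  have hτ1 : pr x = 1 := by
    have h15 : (pr x * pr s) ^ 15 = 1 := by
      rw [hcc.mul_pow, show 15 = 3 * 5 from rfl, pow_mul, hτ3, one_pow, mul_comm 3 5, pow_mul,
        hσ5, one_pow, one_mul]
    rcases perm15 _ h15 with h | h
    · rw [hcc.mul_pow, hτ3, one_mul] at h
      exfalso
      apply hσ1
      calc pr s = ((pr s) ^ 3) ^ 2 * ((pr s) ^ 5)⁻¹ := by group
        _ = 1 := by rw [h, hσ5]; simp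
    · rw [hcc.mul_pow, hσ5, mul_one] at h
      calc pr x = ((pr x) ^ 3) ^ 2 * ((pr x) ^ 5)⁻¹ := by group
        _ = 1 := by rw [h, hτ3]; simp
  have hx1 : x.1.s = 1 := hτ1
  have hinv : ∀ i, x.1.m (s.1.s⁻¹ i) = x.1.m i := by
    intro i
    have h1 : (x * s).1.m i = (s * x).1.m i := by rw [hc]
    change (x.1 * s.1).m i = (s.1 * x.1).m i at h1
    rw [H0.mul_m, H0.mul_m, hx1] at h1
    simp only [inv_one, Perm.coe_one, id_eq] at h1
    rw [add_comm] at h1
    exact (add_left_cancel h1).symm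
  have hinv2 : ∀ i, x.1.m (s.1.s i) = x.1.m i := by
    intro i
    have h1 := hinv (s.1.s i)
    have h2 : (s.1.s)⁻¹ (s.1.s i) = i := by simp
    rw [h2] at h1
    exact h1.symm
  have hinv3 : ∀ (k : ℕ) (i : Fin 5), x.1.m ((s.1.s ^ k) i) = x.1.m i := by
    intro k
    induction k with
    | zero => intro i; simp
    | succ k ih =>
      intro i
      rw [pow_succ, Perm.mul_apply, ih, hinv2]
  have hconst : ∀ i, x.1.m i = x.1.m 0 := by
    intro i
    obtain ⟨k, hk⟩ := perm5 (pr s) hσ5 hσ1 i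
    have h1 := hinv3 k 0
    change x.1.m (((pr s) ^ (k : ℕ)) 0) = _ at h1
    rw [hk] at h1
    exact h1
  have hsum : ∑ i, x.1.m i = 0 := x.2
  rw [Finset.sum_congr rfl (fun i _ => hconst i)] at hsum
  have h0 : x.1.m 0 = 0 := by
    simp only [Finset.sum_const, Finset.card_univ, Fintype.card_fin, nsmul_eq_mul] at hsum
    have h7 : ((5 : ℕ) : ZMod 3) = -1 := by decide
    rw [h7] at hsum
    simpa using hsum
  apply Subtype.ext
  ext i
  · rw [hconst, h0]; rfl
  · rw [hx1]; rfl

/-- Reduction to prime order. -/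
theorem exists_pow_prime {K : Type} [Group K] (r : ℕ) (x : K) (k : ℕ)
    (h : x ^ r ^ k = 1) (hx : x ≠ 1) : ∃ n : ℕ, x ^ n ≠ 1 ∧ (x ^ n) ^ r = 1 := by
  induction k with
  | zero => simp at h; exact absurd h hx
  | succ k ih =>
    by_cases h1 : x ^ r ^ k = 1
    · exact ih h1
    · exact ⟨r ^ k, h1, by rw [← pow_mul, ← pow_succ]; exact h⟩

theorem no_comm (x s : H) (a b : ℕ) (hx : x ^ 3 ^ a = 1) (hs : s ^ 5 ^ b = 1) (hx1 : x ≠ 1)
    (hs1 : s ≠ 1) : x * s ≠ s * x := by
  intro hc
  obtain ⟨n, hn1, hn2⟩ := exists_pow_prime 3 x a hx hx1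
  obtain ⟨m, hm1, hm2⟩ := exists_pow_prime 5 s b hs hs1
  refine hn1 (no_comm_prime (x ^ n) (s ^ m) hn2 hm2 hm1 ?_)
  have hc' : Commute x s := hc
  exact (hc'.pow_pow n m)

/-! ### The wreath product -/

/-- The group `G = C₅ ≀ H`. -/
abbrev G : Type := RegularWreathProduct (Multiplicative (ZMod 5)) H

/-- The projection to `H`. -/
def φ : G →* H := RegularWreathProduct.rightHom

theorem φ_surj : Function.Surjective φ := fun h => ⟨⟨1, h⟩, rfl⟩

theorem pow_of_right_one (g : G) (hg : φ g = 1) (n : ℕ) : φ (g ^ n) = 1 ∧ (g ^ n).left = g.left ^ n := by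
  have hg' : g.right = 1 := hg
  induction n with
  | zero => exact ⟨by simp, rfl⟩
  | succ n ih =>
    refine ⟨by rw [map_pow, hg, one_pow], ?_⟩
    rw [pow_succ, RegularWreathProduct.mul_left, ih.2]
    have h1 : (g ^ n).right = 1 := ih.1
    rw [h1]
    funext x
    simp [pow_succ]

/-- the base group has exponent `5` -/
theorem pow_five_of_ker (g : G) (hg : φ g = 1) : g ^ 5 = 1 := by
  have h := pow_of_right_one g hg 5
  refine RegularWreathProduct.ext ?_ ?_
  · rw [h.2]
    funext x
    change ((g.left x) ^ 5 : Multiplicative (ZMod 5)) = 1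
    generalize g.left x = y
    revert y
    decide
  · have h1 : (g ^ 5).right = 1 := h.1
    rw [h1]
    rfl

/-- the base group is abelian -/
theorem comm_of_ker (g h : G) (hg : φ g = 1) (hh : φ h = 1) : g * h = h * g := by
  have hg' : g.right = 1 := hg
  have hh' : h.right = 1 := hh
  refine RegularWreathProduct.ext ?_ ?_
  · funext x
    simp [hg', hh', mul_comm]
  · simp [hg', hh']

/-- the base group is self-centralizing -/
theorem centralizer_ker (g : G) (h : ∀ v : G, φ v = 1 → g * v = v * g) : φ g = 1 := by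
  classical
  let v : G := ⟨fun x => if x = 1 then Multiplicative.ofAdd 1 else 1, 1⟩
  have h1 := congrArg (fun w : G => w.left g.right) (h v rfl)
  simp only [RegularWreathProduct.mul_left, Pi.mul_apply, v, inv_mul_cancel, if_true, inv_one,
    one_mul] at h1
  by_contra hne
  have hne' : g.right ≠ 1 := hne
  rw [if_neg hne', one_mul] at h1
  have h2 : (Multiplicative.ofAdd (1 : ZMod 5)) = 1 := by
    have := mul_left_cancel (h1.trans (mul_one _).symm)
    exact this
  exact absurd h2 (by decide)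

/-- The kernel of `φ` is a `5`-group. -/
theorem ker_pgroup : IsPGroup 5 φ.ker := by
  intro g
  refine ⟨1, ?_⟩
  apply Subtype.ext
  have := pow_five_of_ker g.1 g.2
  simpa using this

instance f3 : Fact (Nat.Prime 3) := ⟨by norm_num⟩
instance f5 : Fact (Nat.Prime 5) := ⟨by norm_num⟩

/-- `|H| = 2³ 3⁵ 5` -/
theorem fact_H3 : (9720 : ℕ).factorization 3 = 5 := by
  rw [show (9720 : ℕ) = 3 ^ 5 * 40 by norm_num, Nat.factorization_mul (by norm_num) (by norm_num),
    Finsupp.add_apply, Nat.Prime.factorization_pow (by norm_num),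
    Nat.factorization_eq_zero_of_not_dvd (by norm_num : ¬ 3 ∣ 40)]
  simp

theorem fact_H5 : (9720 : ℕ).factorization 5 = 1 := by
  rw [show (9720 : ℕ) = 5 ^ 1 * 1944 by norm_num,
    Nat.factorization_mul (by norm_num) (by norm_num),
    Finsupp.add_apply, Nat.Prime.factorization_pow (by norm_num),
    Nat.factorization_eq_zero_of_not_dvd (by norm_num : ¬ 5 ∣ 1944)]
  simp

/-- The image of a normalizing element normalizes the image. -/
theorem map_normalizer {P : Subgroup G} {x : G} (hx : x ∈ Subgroup.normalizer (P : Set G)) :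
    φ x ∈ Subgroup.normalizer ((P.map φ : Subgroup H) : Set H) := by
  rw [Subgroup.mem_normalizer_iff]
  have h1 := Subgroup.mem_normalizer_iff.1 hx
  intro h
  constructor
  · rintro ⟨g, hg, rfl⟩
    refine ⟨x * g * x⁻¹, (h1 g).1 hg, by simp⟩
  · rintro ⟨g, hg, hgh⟩
    refine ⟨x⁻¹ * g * x, ?_, ?_⟩
    · have := (Subgroup.mem_normalizer_iff''.1 hx g).1 hg
      exact this
    · rw [map_mul, map_mul, hgh, map_inv]
      group

/-- No arc from `5` to `3` in `G`. -/
theorem no_arc_53 : ¬ SylowArc G 5 3 := by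
  rintro ⟨-, -, -, -, P, hP⟩
  have h1 : 3 ∣ Nat.card (Subgroup.normalizer ((P : Subgroup G) : Set G)) :=
    hP.trans (Subgroup.relIndex_dvd_card _ _)
  obtain ⟨x, hx⟩ := exists_prime_orderOf_dvd_card' 3 h1
  have hx3 : (x : G) ^ 3 = 1 := by
    have h2 : x ^ 3 = 1 := by rw [← hx]; exact pow_orderOf_eq_one x
    have h3 := congrArg Subtype.val h2
    simpa using h3
  have hx1 : (x : G) ≠ 1 := by
    intro h
    have h2 : x = 1 := Subtype.ext h
    rw [h2, orderOf_one] at hx
    norm_num at hx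
  have hφ : φ x ≠ 1 := by
    intro h
    have h5 := pow_five_of_ker x h
    apply hx1
    calc (x : G) = ((x : G) ^ 3) ^ 2 * ((x : G) ^ 5)⁻¹ := by group
      _ = 1 := by rw [hx3, h5]; simp
  let PH : Sylow 5 H := P.mapSurjective φ_surj
  have hPH : (PH : Subgroup H) = (P : Subgroup G).map φ := Sylow.coe_mapSurjective φ_surj P
  have hcard : Nat.card (PH : Subgroup H) = 5 := by
    have := PH.card_eq_multiplicity
    rw [card_H, fact_H5] at this
    simpa using this
  have hnorm := map_normalizer x.2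
  rw [← hPH] at hnorm
  obtain ⟨s, hs, hs1, hcs⟩ := exists_commuting (r := 3) (by norm_num) (PH : Subgroup H) (φ x) hnorm 1
    (by rw [pow_one, ← map_pow, hx3, map_one]) (by rw [hcard]; decide)
  have hs5 : s ^ 5 ^ 1 = 1 := by
    have h2 : (⟨s, hs⟩ : (PH : Subgroup H)) ^ Nat.card (PH : Subgroup H) = 1 := pow_card_eq_one'
    rw [hcard] at h2
    have h3 := congrArg Subtype.val h2
    simpa using h3
  exact no_comm (φ x) s 1 1 (by rw [pow_one, ← map_pow, hx3, map_one]) hs5 hφ hs1 hcs

/-- No arc from `3` to `5` in `G`. -/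
theorem no_arc_35 : ¬ SylowArc G 3 5 := by
  rintro ⟨-, -, -, -, Q, hQ⟩
  let N : Subgroup G := Subgroup.normalizer ((Q : Subgroup G) : Set G)
  let K : Subgroup G := (Q : Subgroup G) ⊔ Subgroup.centralizer ((Q : Subgroup G) : Set G)
  obtain ⟨S⟩ : Nonempty (Sylow 5 N) := inferInstance
  let QH : Sylow 3 H := Q.mapSurjective φ_surj
  have hQH : (QH : Subgroup H) = (Q : Subgroup G).map φ := Sylow.coe_mapSurjective φ_surj Q
  have hcard : Nat.card (QH : Subgroup H) = 243 := by
    have := QH.card_eq_multiplicity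
    rw [card_H, fact_H3] at this
    simpa using this
  have hSK : (S : Subgroup N) ≤ K.subgroupOf N := by
    intro y hy
    rw [Subgroup.mem_subgroupOf]
    obtain ⟨k, hk⟩ := S.isPGroup' ⟨y, hy⟩
    have hk' : (y : G) ^ 5 ^ k = 1 := by
      have h2 := congrArg (fun z => ((z : N) : G)) (congrArg Subtype.val hk)
      simpa using h2
    have hnorm := map_normalizer y.2
    rw [← hQH] at hnorm
    have hφk : (φ y) ^ 5 ^ k = 1 := by rw [← map_pow, hk', map_one]
    obtain ⟨s, hs, hs1, hcs⟩ := exists_commuting (r := 5) (by norm_num) (QH : Subgroup H) (φ y)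
      hnorm k hφk (by rw [hcard]; decide)
    obtain ⟨j, hj⟩ := QH.isPGroup' ⟨s, hs⟩
    have hj' : s ^ 3 ^ j = 1 := by
      have h2 := congrArg Subtype.val hj
      simpa using h2
    have hφ1 : φ y = 1 := by
      by_contra hne
      exact no_comm s (φ y) j k hj' hφk hs1 hne hcs.symm
    -- `y` centralizes `Q`
    refine Subgroup.mem_sup_right ?_
    rw [Subgroup.mem_centralizer_iff]
    intro q hq
    have hz1 : (y : G) * q * (y : G)⁻¹ ∈ (Q : Subgroup G) :=
      (Subgroup.mem_normalizer_iff.1 y.2 q).1 hq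
    have hz : (y : G) * q * (y : G)⁻¹ * q⁻¹ ∈ (Q : Subgroup G) :=
      Subgroup.mul_mem _ hz1 (Subgroup.inv_mem _ hq)
    have hzφ : φ ((y : G) * q * (y : G)⁻¹ * q⁻¹) = 1 := by
      rw [map_mul, map_mul, map_mul, hφ1, map_inv, hφ1, map_inv]
      group
    have hz5 := pow_five_of_ker _ hzφ
    obtain ⟨i, hi⟩ := Q.isPGroup' ⟨_, hz⟩
    have hi' : ((y : G) * q * (y : G)⁻¹ * q⁻¹) ^ 3 ^ i = 1 := by
      have h2 := congrArg Subtype.val hi
      simpa using h2
    have hord : orderOf ((y : G) * q * (y : G)⁻¹ * q⁻¹) = 1 := by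
      have h2 := orderOf_dvd_of_pow_eq_one hz5
      have h3 := orderOf_dvd_of_pow_eq_one hi'
      have hcop : Nat.Coprime 5 (3 ^ i) := by
        apply Nat.Coprime.pow_right
        norm_num
      exact Nat.eq_one_of_dvd_coprimes hcop h2 h3
    rw [orderOf_eq_one_iff] at hord
    have h4 : (y : G) * q * (y : G)⁻¹ = q := by
      rw [mul_inv_eq_one] at hord
      exact hord
    rw [mul_inv_eq_iff_eq_mul] at h4
    exact h4.symm
  have hdvd : (K.subgroupOf N).index ∣ (S : Subgroup N).index := Subgroup.index_dvd_of_le hSK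
  have h5 : 5 ∣ (S : Subgroup N).index := hQ.trans hdvd
  exact S.not_dvd_index h5

/-! ### The normal subgroup `A` -/

/-- The kernel of `G → H → S₅`. -/
def A : Subgroup G := (pr.comp φ).ker

/-- The restriction of `φ` to `A`. -/
def ψ : A →* H := φ.comp A.subtype

theorem range_pow (m : H) (hm : m ∈ ψ.range) : m ^ 3 = 1 := by
  obtain ⟨a, rfl⟩ := hm
  have ha : (ψ a).1.s = 1 := a.2
  generalize ψ a = s at ha
  have key : ∀ n : ℕ, (s ^ n).1.s = 1 ∧ ∀ i, (s ^ n).1.m i = (n : ZMod 3) * s.1.m i := by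
    intro n
    induction n with
    | zero => exact ⟨rfl, fun i => by simp⟩
    | succ n ih =>
      have h1 : (s ^ (n + 1)).1 = (s ^ n).1 * s.1 := by rw [pow_succ]; rfl
      constructor
      · rw [h1, H0.mul_s, ih.1, ha, one_mul]
      · intro i
        rw [h1, H0.mul_m, ih.2, ih.1]
        simp
        ring
  apply Subtype.ext
  refine H0.ext ?_ ?_
  · funext i
    rw [(key 3).2]
    have h7 : ((3 : ℕ) : ZMod 3) = 0 := by decide
    rw [h7, zero_mul]
    rfl
  · rw [(key 3).1]
    rfl

theorem range_pgroup : IsPGroup 3 ψ.range := by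
  intro m
  refine ⟨1, ?_⟩
  apply Subtype.ext
  simpa using range_pow m.1 m.2

theorem range_nontrivial : ∃ m ∈ ψ.range, m ≠ 1 := by
  let h0 : H0 := ⟨![1, -1, 0, 0, 0], 1⟩
  have hh : h0 ∈ H1 := by
    change ∑ i, (![1, -1, 0, 0, 0] : Fin 5 → ZMod 3) i = 0
    decide
  refine ⟨⟨h0, hh⟩, ⟨⟨⟨1, ⟨h0, hh⟩⟩, ?_⟩, rfl⟩, ?_⟩
  · change h0.s = 1
    rfl
  · intro h
    have h1 := congrArg (fun z : H => z.1.m 0) h
    have h2 : (1 : ZMod 3) = 0 := h1
    exact absurd h2 (by decide)

theorem ker_ψ_pgroup : IsPGroup 5 ψ.ker := by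
  intro g
  refine ⟨1, ?_⟩
  apply Subtype.ext
  apply Subtype.ext
  have := pow_five_of_ker g.1.1 g.2
  simpa using this

theorem index_ker_ψ : ψ.ker.index = Nat.card ψ.range := Subgroup.index_ker ψ

theorem index_three_pow : ∃ n : ℕ, ψ.ker.index = 3 ^ (n + 1) := by
  obtain ⟨n, hn⟩ := range_pgroup.exists_card_eq
  rw [index_ker_ψ, hn]
  cases n with
  | zero =>
    exfalso
    obtain ⟨m, hm, hm1⟩ := range_nontrivial
    rw [pow_zero, Nat.card_eq_one_iff_unique] at hn
    obtain ⟨hsub, -⟩ := hn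
    have := hsub.elim (⟨m, hm⟩ : ψ.range) 1
    exact hm1 (congrArg Subtype.val this)
  | succ n => exact ⟨n, rfl⟩

theorem not_dvd : ¬ 5 ∣ ψ.ker.index := by
  obtain ⟨n, hn⟩ := index_three_pow
  rw [hn]
  intro h
  have := Nat.Prime.dvd_of_dvd_pow (by norm_num : Nat.Prime 5) h
  norm_num at this

theorem three_dvd : 3 ∣ ψ.ker.index := by
  obtain ⟨n, hn⟩ := index_three_pow
  rw [hn, pow_succ]
  exact dvd_mul_left _ _

/-- `5 → 3` is an arc for `A`. -/
theorem arc_A : SylowArc A 5 3 := by
  have h3 : 3 ∣ Nat.card A := three_dvd.trans (Subgroup.index_dvd_card _)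
  have h5 : 5 ∣ Nat.card A := by
    let v : G := ⟨fun _ => Multiplicative.ofAdd 1, 1⟩
    have hv : φ v = 1 := rfl
    have hvA : v ∈ A := by
      change pr (φ v) = 1
      rw [hv, map_one]
    have h5v : (⟨v, hvA⟩ : A) ^ 5 = 1 := Subtype.ext (pow_five_of_ker v hv)
    have hne : (⟨v, hvA⟩ : A) ≠ 1 := by
      intro h
      have h1 := congrArg (fun z : A => z.1.left 1) h
      have h2 : (Multiplicative.ofAdd (1 : ZMod 5)) = 1 := h1
      exact absurd h2 (by decide)
    have h6 := orderOf_eq_prime h5v hne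
    have h7 := orderOf_dvd_natCard (⟨v, hvA⟩ : A)
    rw [h6] at h7
    exact h7
  refine ⟨by norm_num, by norm_num, h5, h3, ker_ψ_pgroup.toSylow not_dvd, ?_⟩
  have hle : Subgroup.centralizer (ψ.ker : Set A) ≤ ψ.ker := by
    intro a ha
    rw [Subgroup.mem_centralizer_iff] at ha
    change φ a.1 = 1
    apply centralizer_ker
    intro v hv
    have hvA : v ∈ A := by
      change pr (φ v) = 1
      rw [hv, map_one]
    have h1 := ha ⟨v, hvA⟩ hv
    exact (congrArg Subtype.val h1).symm
  rw [IsPGroup.toSylow_coe, sup_eq_left.2 hle]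
  have hN : Subgroup.normalizer (ψ.ker : Set A) = ⊤ := Subgroup.normalizer_eq_top _
  rw [hN, Subgroup.relIndex_top_right]
  exact three_dvd

/-- **Theorem.** There are a finite group `G` and normal subgroups `A`, `B` of `G` with `G = A B`
such that the undirected Sylow graph of `G` is not the union of the undirected Sylow graphs of
`A` and `B`. -/
theorem result : ∃ (G : Type) (_ : Group G) (_ : Finite G) (A B : Subgroup G),
    A.Normal ∧ B.Normal ∧ (∀ g : G, ∃ a ∈ A, ∃ b ∈ B, g = a * b) ∧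
      ¬ (∀ p q : ℕ, SylowEdge G p q ↔ (SylowEdge A p q ∨ SylowEdge B p q)) := by
  refine ⟨G, inferInstance, inferInstance, A, ⊤, ?_, inferInstance,
    fun g => ⟨1, A.one_mem, g, Subgroup.mem_top g, by rw [one_mul]⟩, ?_⟩
  · exact MonoidHom.normal_ker _
  · intro h
    have h1 := (h 5 3).2 (Or.inl ⟨by norm_num, Or.inl arc_A⟩)
    rcases h1.2 with h2 | h2
    · exact no_arc_53 h2
    · exact no_arc_35 h2

end Pool.Agent.Results.MP_8e29f8_al.UndirectedSylow
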